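import Pool.Agent.Helper38.NS.Wvq

/-! Exact entropy calculus: theorem FW (statement) is the statement `WVQ`: the properties in `UQ` are cumulative. -/

set_option autoImplicit false

namespace Pool.Agent.Helper38.BF

open Pool.Agent.Helper31.EC QS Pool.Agent.Helper38.NS

/-- THEOREM FW, statement in the exact calculus -/
def FWQ (N : ℕ) (ρ θ : ℝ) : Prop := WVQ N ρ θ

theorem FWQ.wvq {N : ℕ} {ρ θ : ℝ} (h : FWQ N ρ θ) : WVQ N ρ θ := h

end Pool.Agent.Helper38.BF
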