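import Pool.Agent.Helper96.FWC.Uq
import Pool.Agent.Helper38.NS.UQi

/-! Exact entropy calculus: helper96's theorem QUO with intervals of levels (quotients by directions which depend on
frozen data are full at all levels). -/

set_option autoImplicit false

namespace Pool.Agent.Helper38.BF

open Filter Topology Pool.Agent.Helper69.RK
open Pool.Agent.Helper31.EC QS Sp Pool.Agent.Helper38.NS Pool.Agent.Helper96.FLT Pool.Agent.Helper96.FWC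

noncomputable section

variable {S : Sp} {ι ν : Type} [Fintype ι] [Fintype ν]

/-- the quotients by directions which are independent of the whole state are full, at all levels -/
def STQi (q : ι → QS S) (z : ν → QS S) : Prop :=
  ∀ (T : Sp) (p : Pj T S) (u : ν → QS T) (a : ν), IsUnit (u a) → (∀ y : S.L, I (vd u 1) (p.map y) ⊥ = 0) →
    ∀ j k : ℝ, 0 ≤ j → j ≤ k → k ≤ 1 →
      h (vd (wg (fun i => p.qs (z i)) u a) k) (p.map (vd q 1) ⊔ vd u 1 ⊔ p.map (vd z j)) =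
        ((Fintype.card ν : ℝ) - 1) * (k - j)

/-- THEOREM QUO -/
theorem quoI {q : ι → QS S} {z : ν → QS S} (w : Wk q z) (hS : STQi q z) {T : Sp} (p : Pj T S) (X : T.L) {j k : ℝ}
    (hj0 : 0 ≤ j) (hjk : j ≤ k) (h1 : k ≤ 1) (hX : I (p.map (vd z k)) X (p.map (vd q 1)) = 0) (u : ν → QS T) (a : ν)
    (ha : IsUnit (u a)) (hu : vd u 1 ≤ X ⊔ p.map (vd q 1)) :
    ((Fintype.card ν : ℝ) - 1) * (k - j) ≤
      h (vd (wg (fun i => p.qs (z i)) u a) k) (X ⊔ p.map (vd q 1) ⊔ p.map (vd z j)) := by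
  have h0 : 0 ≤ k := hj0.trans hjk
  have hj1 : j ≤ 1 := hjk.trans h1
  obtain ⟨E, s1, s2, c, ci, -⟩ := exists_join p w.p0 (Sum.elim q z)
  -- informations of the joint space
  obtain ⟨Q0, hQ0⟩ : ∃ Q0, Q0 = s1.map (p.map (vd q 1)) := ⟨_, rfl⟩
  obtain ⟨Z0, hZ0⟩ : ∃ Z0, Z0 = s1.map (p.map (vd z 1)) := ⟨_, rfl⟩
  obtain ⟨Zk, hZk⟩ : ∃ Zk, Zk = s1.map (p.map (vd z k)) := ⟨_, rfl⟩
  obtain ⟨X', hX'⟩ : ∃ X', X' = s1.map X := ⟨_, rfl⟩
  obtain ⟨M, hM⟩ : ∃ M, M = s2.map w.E := ⟨_, rfl⟩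
  obtain ⟨Q1, hQ1⟩ : ∃ Q1, Q1 = s2.map (w.p1.map (vd q 1)) := ⟨_, rfl⟩
  obtain ⟨Z1, hZ1⟩ : ∃ Z1, Z1 = s2.map (w.p1.map (vd z k)) := ⟨_, rfl⟩
  obtain ⟨Zj, hZj⟩ : ∃ Zj, Zj = s1.map (p.map (vd z j)) := ⟨_, rfl⟩
  obtain ⟨Z1j, hZ1j⟩ : ∃ Z1j, Z1j = s2.map (w.p1.map (vd z j)) := ⟨_, rfl⟩
  have cq : ∀ i, s1.qs (p.qs (q i)) = s2.qs (w.p0.qs (q i)) := fun i => c (Sum.inl i)
  have cz : ∀ i, s1.qs (p.qs (z i)) = s2.qs (w.p0.qs (z i)) := fun i => c (Sum.inr i)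
  have eQ0 : s2.map (w.p0.map (vd q 1)) = Q0 := by
    rw [hQ0, ← w.p0.qs_vd, ← p.qs_vd, ← s1.qs_vd, ← s2.qs_vd]
    exact (vd_congr cq 1).symm
  have eZ : ∀ r, s2.map (w.p0.map (vd z r)) = s1.map (p.map (vd z r)) := by
    intro r
    rw [← w.p0.qs_vd, ← p.qs_vd, ← s1.qs_vd, ← s2.qs_vd]
    exact (vd_congr cz r).symm
  have lZ : Zk ≤ Z0 := by
    rw [hZk, hZ0]
    exact s1.map_mono (p.map_mono (vd_mono z h1))
  -- independences
  have F1 : I Z0 M Q0 = 0 := by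
    have h2 := s2.I_map (w.p0.map (vd z 1)) w.E (w.p0.map (vd q 1))
    rw [w.he, eQ0, eZ, ← hZ0, ← hM] at h2
    exact h2
  have F2 : ∀ y, I X' (s2.map y) (Q0 ⊔ Z0) = 0 := by
    intro y
    have h2 := ci X y
    rw [vd_sum, p.map_sup, s1.map_sup, ← hQ0, ← hZ0, ← hX'] at h2
    exact h2
  have F3 : I Zk X' Q0 = 0 := by
    have h2 := s1.I_map (p.map (vd z k)) X (p.map (vd q 1))
    rw [hX, ← hZk, ← hX', ← hQ0] at h2
    exact h2
  have F4 : I Q1 (Q0 ⊔ Z0) ⊥ = 0 := by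
    have h2 := s2.I_map (w.p1.map (vd q 1)) (w.p0.map (vd q 1 ⊔ vd z 1)) ⊥
    rw [w.hr, s2.map_bot, w.p0.map_sup, s2.map_sup, eQ0, eZ, ← hZ0, ← hQ1] at h2
    exact h2
  have lq : Q1 ≤ Q0 ⊔ M := by
    have h2 := s2.map_mono w.hq
    rw [s2.map_sup, eQ0, ← hM, ← hQ1] at h2
    exact h2
  have lY : vd (fun i => s2.qs (w.Y i)) 1 ≤ Q0 ⊔ M := by
    rw [s2.qs_vd]
    have h2 := s2.map_mono w.hY
    rw [s2.map_sup, eQ0, ← hM] at h2
    exact h2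
  have ez : ∀ i, s2.qs (w.p1.qs (z i)) = s1.qs (p.qs (z i)) + s2.qs (w.Y i) := by
    intro i
    rw [w.hz i, map_add, cz i]
  -- the digits of level k
  have G1 : I M (Z0 ⊔ X') Q0 = 0 := by
    refine ind_add (ind_symm F1) (C' := Z0 ⊔ Q0) ?_ rfl
    have h2 := F2 w.E
    rw [← hM, sup_comm Q0 Z0] at h2
    exact ind_symm h2
  have G2 : I Zk (X' ⊔ M) Q0 = 0 := by
    refine ind_add F3 (C' := X' ⊔ Q0) ?_ rfl
    exact ind_symm (ind_of G1 (by order) (by order) (by order) (by order))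
  have hZd : vd (fun i => s2.qs (w.p1.qs (z i))) k = Z1 := by
    rw [hZ1, ← w.p1.qs_vd, ← s2.qs_vd]
  have hZd0 : vd (fun i => s1.qs (p.qs (z i))) k = Zk := by
    rw [hZk, ← p.qs_vd, ← s1.qs_vd]
  have lZ1 : Z1 ≤ Zk ⊔ (Q0 ⊔ M) := by
    rw [← hZd, ← hZd0, vd_le]
    intro i
    rw [ez i]
    have a1 := dg_add_le (s1.qs (p.qs (z i))) (s2.qs (w.Y i)) h1
    have a2 := dg_le_vd (fun i => s1.qs (p.qs (z i))) k i
    have a3 := (dg_mono (s2.qs (w.Y i)) h1).trans (dg_le_vd (fun i => s2.qs (w.Y i)) 1 i)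
    beta_reduce at a2
    order
  have lZk : Zk ≤ Z1 ⊔ (Q0 ⊔ M) := by
    rw [← hZd, ← hZd0, vd_le]
    intro i
    have a0 : s1.qs (p.qs (z i)) = s2.qs (w.p1.qs (z i)) - s2.qs (w.Y i) := by
      rw [ez i]
      ring
    rw [a0]
    have a1 := dg_sub_le (s2.qs (w.p1.qs (z i))) (s2.qs (w.Y i)) h1
    have a2 := dg_le_vd (fun i => s2.qs (w.p1.qs (z i))) k i
    have a3 := (dg_mono (s2.qs (w.Y i)) h1).trans (dg_le_vd (fun i => s2.qs (w.Y i)) 1 i)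
    beta_reduce at a2
    order
  have lZ1j : Z1j ≤ Z1 := by
    rw [hZ1j, hZ1]
    exact s2.map_mono (w.p1.map_mono (vd_mono z hjk))
  have lj : Z1j ≤ Zj ⊔ (Q0 ⊔ M) := by
    rw [hZ1j, hZj, ← w.p1.qs_vd, ← s2.qs_vd, ← p.qs_vd, ← s1.qs_vd, vd_le]
    intro i
    rw [ez i]
    have a1 := dg_add_le (s1.qs (p.qs (z i))) (s2.qs (w.Y i)) hj1
    have a2 := dg_le_vd (fun i => s1.qs (p.qs (z i))) j i
    have a3 := (dg_mono (s2.qs (w.Y i)) hj1).trans (dg_le_vd (fun i => s2.qs (w.Y i)) 1 i)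
    beta_reduce at a2
    order
  have lj' : Zj ≤ Z1j ⊔ (Q0 ⊔ M) := by
    rw [hZ1j, hZj, ← w.p1.qs_vd, ← s2.qs_vd, ← p.qs_vd, ← s1.qs_vd, vd_le]
    intro i
    have a0 : s1.qs (p.qs (z i)) = s2.qs (w.p1.qs (z i)) - s2.qs (w.Y i) := by
      rw [ez i]
      ring
    rw [a0]
    have a1 := dg_sub_le (s2.qs (w.p1.qs (z i))) (s2.qs (w.Y i)) hj1
    have a2 := dg_le_vd (fun i => s2.qs (w.p1.qs (z i))) j i
    have a3 := (dg_mono (s2.qs (w.Y i)) hj1).trans (dg_le_vd (fun i => s2.qs (w.Y i)) 1 i)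
    beta_reduce at a2
    order
  -- the end point: count
  have hS1 : h Z1 Q1 = h Zk Q0 := by
    rw [hZ1, hQ1, hZk, hQ0, s2.h_map, w.p1.h_map, s1.h_map, p.h_map]
  have G3 : I Z1 (X' ⊔ M ⊔ Q0) Q1 = 0 := by
    apply ind_of_h
    rw [hS1]
    have b1 : h Zk (X' ⊔ M ⊔ Q0) = h Zk Q0 := I_zero_iff_h.mp G2
    have b2 : X' ⊔ M ⊔ Q0 ⊔ Q1 = X' ⊔ M ⊔ Q0 := by order
    rw [b2, ← b1]
    unfold h
    have b3 : Zk ⊔ (X' ⊔ M ⊔ Q0) = Z1 ⊔ (X' ⊔ M ⊔ Q0) := by order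
    rw [b3]
  have G4 : I Q1 (Q0 ⊔ Z0 ⊔ X') ⊥ = 0 := by
    refine ind_add F4 (C' := Q0 ⊔ Z0 ⊔ ⊥) ?_ rfl
    rw [sup_bot_eq]
    have h2 := F2 (w.p1.map (vd q 1))
    rw [← hQ1] at h2
    exact ind_symm h2
  have G5 : I (X' ⊔ Q0) (Q1 ⊔ Z1) ⊥ = 0 := by
    refine ind_add (C' := Q1 ⊔ ⊥) (ind_symm (ind_of G4 le_rfl bot_le le_sup_left (by order))) ?_ rfl
    rw [sup_bot_eq]
    exact ind_symm (ind_of G3 le_rfl le_sup_right le_sup_left (by order))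
  -- resampling of the state
  have hrd : ∀ i, ∃ g : QS S, z i - g ∈ QS.Id S k ∧ dg g 1 = dg (z i) k := fun i => exists_rd (z i) h0 h1
  choose g hg1 hg2 using hrd
  have hgd : vd g 1 = vd z k := by
    unfold vd
    congr 1
    funext i
    exact hg2 i
  obtain ⟨G, g1, g2, cg, cgi, -⟩ := exists_copyF (s2.comp w.p1) (Sum.elim q g)
  have cg1 : ∀ i, g1.qs (s2.qs (w.p1.qs (q i))) = g2.qs (q i) := by
    intro i
    have h2 := cg (Sum.inl i)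
    rw [Pj.comp_qs] at h2
    exact h2
  have cg2 : ∀ i, g1.qs (s2.qs (w.p1.qs (g i))) = g2.qs (g i) := by
    intro i
    have h2 := cg (Sum.inr i)
    rw [Pj.comp_qs] at h2
    exact h2
  have ecm : (s2.comp w.p1).map (vd (Sum.elim q g) 1) = Q1 ⊔ Z1 := by
    rw [vd_sum, hgd, Pj.comp_map, w.p1.map_sup, s2.map_sup, ← hQ1, ← hZ1]
  have U0 : vd (fun i => s1.qs (u i)) 1 ≤ X' ⊔ Q0 := by
    rw [s1.qs_vd, hX', hQ0, ← s1.map_sup]
    exact s1.map_mono hu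
  obtain ⟨V, hV⟩ : ∃ V, V = vd (fun i => s1.qs (u i)) 1 := ⟨_, rfl⟩
  have hind : ∀ y : S.L, I (vd (fun i => g1.qs (s1.qs (u i))) 1) (g2.map y) ⊥ = 0 := by
    intro y
    rw [g1.qs_vd, ← hV]
    rw [← hV] at U0
    have h2 : I V (Q1 ⊔ Z1) ⊥ = 0 := ind_symm (ind_of (ind_symm G5) le_rfl bot_le le_sup_left (by order))
    have h3 := g1.I_map V (Q1 ⊔ Z1) ⊥
    rw [h2, g1.map_bot] at h3
    have h4 := cgi V y
    rw [ecm] at h4
    have h5 := ind_add h3 (C' := g1.map (Q1 ⊔ Z1) ⊔ ⊥) (by rw [sup_bot_eq]; exact h4) rfl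
    exact ind_of h5 le_rfl bot_le le_sup_left (by order)
  have hua : IsUnit (g1.qs (s1.qs (u a))) := (ha.map s1.qs).map g1.qs
  have key := hS G g2 (fun i => g1.qs (s1.qs (u i))) a hua hind j k hj0 hjk h1
  -- back to the end point of the walk
  have e1 : vd (wg (fun i => g2.qs (z i)) (fun i => g1.qs (s1.qs (u i))) a) k =
      g1.map (vd (wg (fun i => s2.qs (w.p1.qs (z i))) (fun i => s1.qs (u i)) a) k) := by
    rw [← g1.qs_vd]
    apply vd_le_of_mem h1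
    intro i
    rw [wg_map]
    unfold wg
    have a1 : ∀ j, g2.qs (z j) - g1.qs (s2.qs (w.p1.qs (z j))) ∈ QS.Id G k := by
      intro j
      have b1 := (g2.qs_mem_Id h1).mpr (hg1 j)
      have b2 := (g1.qs_mem_Id h1).mpr ((s2.qs_mem_Id h1).mpr ((w.p1.qs_mem_Id h1).mpr (hg1 j)))
      rw [map_sub] at b1
      rw [map_sub, map_sub, map_sub, cg2 j] at b2
      have b3 := (QS.Id G k).sub_mem b1 b2
      have b4 : g2.qs (z j) - g2.qs (g j) - (g1.qs (s2.qs (w.p1.qs (z j))) - g2.qs (g j)) =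
          g2.qs (z j) - g1.qs (s2.qs (w.p1.qs (z j))) := by ring
      rw [b4] at b3
      exact b3
    have a2 := (QS.Id G k).mul_mem_right (g1.qs (s1.qs (u a))) (a1 i)
    have a3 := (QS.Id G k).mul_mem_right (g1.qs (s1.qs (u i))) (a1 a)
    have a4 := (QS.Id G k).sub_mem a2 a3
    have a5 : (g2.qs (z i) - g1.qs (s2.qs (w.p1.qs (z i)))) * g1.qs (s1.qs (u a)) -
        (g2.qs (z a) - g1.qs (s2.qs (w.p1.qs (z a)))) * g1.qs (s1.qs (u i)) =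
        g2.qs (z i) * g1.qs (s1.qs (u a)) - g2.qs (z a) * g1.qs (s1.qs (u i)) -
        (g1.qs (s2.qs (w.p1.qs (z i))) * g1.qs (s1.qs (u a)) -
          g1.qs (s2.qs (w.p1.qs (z a))) * g1.qs (s1.qs (u i))) := by ring
    rw [a5] at a4
    exact a4
  have e2 : g2.map (vd q 1) ⊔ vd (fun i => g1.qs (s1.qs (u i))) 1 = g1.map (Q1 ⊔ V) := by
    rw [g1.qs_vd, ← hV, g1.map_sup]
    congr 1
    rw [hQ1, ← w.p1.qs_vd, ← s2.qs_vd, ← g1.qs_vd, ← g2.qs_vd]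
    exact (vd_congr cg1 1).symm
  have e3 : g2.map (vd z j) = g1.map Z1j := by
    rw [hZ1j, ← w.p1.qs_vd, ← s2.qs_vd, ← g1.qs_vd, ← g2.qs_vd]
    apply vd_le_of_mem hj1
    intro i
    have b1 := (g2.qs_mem_Id h1).mpr (hg1 i)
    have b2 := (g1.qs_mem_Id h1).mpr ((s2.qs_mem_Id h1).mpr ((w.p1.qs_mem_Id h1).mpr (hg1 i)))
    rw [map_sub] at b1
    rw [map_sub, map_sub, map_sub, cg2 i] at b2
    have b3 := (QS.Id G k).sub_mem b1 b2
    have b4 : g2.qs (z i) - g2.qs (g i) - (g1.qs (s2.qs (w.p1.qs (z i))) - g2.qs (g i)) =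
        g2.qs (z i) - g1.qs (s2.qs (w.p1.qs (z i))) := by ring
    rw [b4] at b3
    exact Id_anti hjk b3
  rw [e1, e2, e3, ← g1.map_sup, g1.h_map] at key
  -- transport to the start
  obtain ⟨W1, hW1⟩ : ∃ W1, W1 = vd (wg (fun i => s2.qs (w.p1.qs (z i))) (fun i => s1.qs (u i)) a) k := ⟨_, rfl⟩
  obtain ⟨W0, hW0⟩ : ∃ W0, W0 = vd (wg (fun i => s1.qs (p.qs (z i))) (fun i => s1.qs (u i)) a) k := ⟨_, rfl⟩
  rw [← hW1] at key
  have lW1 : W1 ≤ Z1 ⊔ V := by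
    rw [hW1, ← hZd, hV]
    exact wg_le _ _ a h1
  have lwd : vd (wg (fun i => s2.qs (w.Y i)) (fun i => s1.qs (u i)) a) k ≤ Q0 ⊔ M ⊔ V := by
    refine (wg_le _ _ a h1).trans (sup_le_sup ?_ hV.ge)
    exact (vd_mono _ h1).trans lY
  have lW : W1 ≤ W0 ⊔ (Q0 ⊔ M ⊔ V) := by
    rw [hW1, hW0, vd_le]
    intro i
    have a0 : wg (fun i => s2.qs (w.p1.qs (z i))) (fun i => s1.qs (u i)) a i =
        wg (fun i => s1.qs (p.qs (z i))) (fun i => s1.qs (u i)) a i +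
        wg (fun i => s2.qs (w.Y i)) (fun i => s1.qs (u i)) a i := by
      unfold wg
      beta_reduce
      rw [ez i, ez a]
      ring
    rw [a0]
    refine (dg_add_le _ _ h1).trans (sup_le_sup (dg_le_vd _ k i) ((dg_le_vd _ k i).trans lwd))
  have hV' : V ≤ X' ⊔ Q0 := by
    rw [hV]
    exact U0
  have k1 : h W1 (X' ⊔ M ⊔ Q0 ⊔ Z1j) = h W1 (Q1 ⊔ V ⊔ Z1j) := by
    have b0 : I (X' ⊔ M ⊔ Q0) Z1 (Q1 ⊔ Z1j) = 0 :=
      ind_of (ind_symm G3) le_sup_left (by order) le_sup_left (by order)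
    have b1 : I (Z1 ⊔ V) (X' ⊔ M ⊔ Q0) (Q1 ⊔ V ⊔ Z1j) = 0 :=
      ind_of (ind_symm b0) (by order) (by order) (by order) (by order)
    have b2 : I W1 (X' ⊔ M ⊔ Q0) (Q1 ⊔ V ⊔ Z1j) = 0 := ind_of b1 le_rfl (by order) (by order) (by order)
    have b3 := I_zero_iff_h.mp b2
    have b4 : X' ⊔ M ⊔ Q0 ⊔ (Q1 ⊔ V ⊔ Z1j) = X' ⊔ M ⊔ Q0 ⊔ Z1j := by order
    rw [b4] at b3
    exact b3
  have k0 : X' ⊔ M ⊔ Q0 ⊔ Z1j = X' ⊔ M ⊔ Q0 ⊔ Zj := by order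
  have k2 : h W1 (X' ⊔ M ⊔ Q0 ⊔ Zj) ≤ h W0 (X' ⊔ M ⊔ Q0 ⊔ Zj) := by
    have b1 := h_mono (B := X' ⊔ M ⊔ Q0 ⊔ Zj) lW
    have b2 := h_sup_le W0 (Q0 ⊔ M ⊔ V) (X' ⊔ M ⊔ Q0 ⊔ Zj)
    have b3 : h (Q0 ⊔ M ⊔ V) (X' ⊔ M ⊔ Q0 ⊔ Zj) = 0 := h_zero (by order)
    linarith
  have k3 : h W0 (X' ⊔ M ⊔ Q0 ⊔ Zj) ≤ h W0 (X' ⊔ Q0 ⊔ Zj) := h_anti (by order)
  have k4 : h W0 (X' ⊔ Q0 ⊔ Zj) =
      h (vd (wg (fun i => p.qs (z i)) u a) k) (X ⊔ p.map (vd q 1) ⊔ p.map (vd z j)) := by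
    rw [← s1.h_map, s1.map_sup, s1.map_sup, ← hX', ← hQ0, ← hZj, hW0, ← s1.qs_vd]
    congr 1
    exact vd_congr (fun i => (wg_map s1 _ u a i).symm) k
  rw [← k4, ← key, ← k1, k0]
  exact k2.trans k3

/-- quotients have at most one coordinate less -/
theorem wg_cardI {T : Sp} (z u : ν → QS T) (a : ν) {j k : ℝ} (hjk : j ≤ k) (h1 : k ≤ 1) (A : T.L)
    (hz : vd z j ≤ A) (hu : ∀ i, dg (u i) 1 ≤ A) :
    Helper31.EC.h (vd (wg z u a) k) A ≤ ((Fintype.card ν : ℝ) - 1) * (k - j) := by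
  classical
  have hj1 : j ≤ 1 := hjk.trans h1
  have e1 : vd (wg z u a) k = (Finset.univ.erase a).sup fun i => dg (wg z u a i) k := by
    apply le_antisymm
    · rw [vd_le]
      intro i
      by_cases hi : i = a
      · have e2 : wg z u a i = 0 := by
          rw [hi]
          unfold wg
          ring
        rw [e2, dg_of_mem_Id (QS.Id T k).zero_mem le_rfl h1]
        exact bot_le
      · exact Finset.le_sup (f := fun i => dg (wg z u a i) k) (Finset.mem_erase.mpr ⟨hi, Finset.mem_univ i⟩)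
    · apply Finset.sup_le
      intro i _
      exact dg_le_vd (wg z u a) k i
  have e4 : ∀ i, dg (wg z u a i) j ≤ A := by
    intro i
    unfold wg
    apply (Kn T j hj1 _).sub_mem
    · exact (Kn T j hj1 _).mul_mem ((dg_le_vd z j i).trans hz) ((dg_mono _ hj1).trans (hu a))
    · exact (Kn T j hj1 _).mul_mem ((dg_le_vd z j a).trans hz) ((dg_mono _ hj1).trans (hu i))
  rw [e1]
  refine (h_finsup_le _ _ _).trans ?_
  have e3 : ∀ i ∈ Finset.univ.erase a, Helper31.EC.h (dg (wg z u a i) k) A ≤ k - j :=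
    fun i _ => (h_anti (e4 i)).trans (h_dg_dg _ hjk)
  refine (Finset.sum_le_sum e3).trans (le_of_eq ?_)
  rw [Finset.sum_const, Finset.card_erase_of_mem (Finset.mem_univ a), nsmul_eq_mul, Finset.card_univ,
    Nat.cast_sub (Fintype.card_pos_iff.mpr ⟨a⟩), Nat.cast_one]

/-- property (Q) -/
theorem quoQI {q : ι → QS S} {z : ν → QS S} (w : Wk q z) (hS : STQi q z) {T : Sp} (p : Pj T S) (X : T.L)
    (u : ν → QS T) (a : ν) {j k : ℝ} (h0 : 0 ≤ j) (hjk : j ≤ k) (h1 : k ≤ 1)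
    (hX : I (p.map (vd z k)) X (p.map (vd q 1)) = 0)
    (hu : ∀ i, dg (u i) 1 ≤ p.map (vd q 1) ⊔ X) (ha : IsUnit (u a)) :
    Helper31.EC.h (vd (fun i => p.qs (z i) * u a - p.qs (z a) * u i) k)
        (p.map (vd q 1) ⊔ X ⊔ p.map (vd z j)) = ((Fintype.card ν : ℝ) - 1) * (k - j) := by
  apply le_antisymm
  · refine wg_cardI (fun i => p.qs (z i)) u a hjk h1 _ ?_ fun i => (hu i).trans le_sup_left
    rw [p.qs_vd]
    exact le_sup_right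
  · have h2 := quoI w hS p X h0 hjk h1 hX u a ha (by
      rw [vd_le]
      intro i
      rw [sup_comm]
      exact hu i)
    rw [sup_comm X] at h2
    exact h2

/-- THEOREM: UQi from the deficit, a free walk and the fullness of the quotients by independent directions -/
theorem uqi_of {q : ι → QS S} {z : ν → QS S} {ρ : ℝ} (w : Wk q z) (hS : STQi q z)
    (hU : ∀ (T : Sp) (p : Pj T S) (E : ∀ k, (T.F k).Ω → Prop) (hE : 0 < ul (T.pr E)) (j k : ℝ),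
      0 ≤ j → j ≤ k → k ≤ 1 →
        Helper31.EC.h (restL E hE (p.map (vd z k))) (restL E hE (p.map (vd q 1 ⊔ vd z j))) ≤
          (Fintype.card ν - ρ) * (k - j)) : UQi S z (vd q 1) ρ where
  Ui := hU
  Qi := fun _ p X u a _ _ h0 hjk h1 h2 h3 h4 => quoQI w hS p X u a h0 hjk h1 h2 h3 h4

end

end Pool.Agent.Helper38.BF
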